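import Pool.Agent.R732.Unif.Main

/-!
# MP_bd9785: Borel uniformization of complements of finitely colourable shift-graph sections

We answer Q1 negatively: there is a Borel set `B` of pairs (point of the Baire space, infinite
set of natural numbers) all of whose sections induce subgraphs of the shift graph with a Borel
`3`-colouring, such that the complement of `B` has no full Borel uniformization.

Idea: let `T 0`, `T 1` be the two trees coded by `x` (evaluated at `x`). One of the two trees
always admits a monotone length-preserving map into the other one, but no such map can be chosen
in a Borel way. Let `P` be the set of `(x, y)` for which `y` bounds, up to a constant, such a map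
(by compactness this is a Borel condition). Any `y` that eventually dominates such a map for `x`
is in `P`, so a point outside `P` is infinitely often below a fixed function; such points have a
Borel 3-colouring by an interval partition argument. A Borel uniformization of `P` would give a
Borel choice of which tree maps into the other one.
-/

set_option autoImplicit false

namespace Pool.Agent.Results.MP_bd9785_lc.NoBorelUniformization

open Pool.Agent.R732.Unif

/-- There is a Borel set `B` in the product of the Baire space and the space of infinite subsets
of `ℕ` such that for every `x` the shift graph restricted to the section of `B` at `x` has a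
Borel proper 3-colouring, but no Borel function `f` satisfies `(x, f x) ∉ B` for every `x`. -/
theorem result :
    ∃ B : Set ((ℕ → ℕ) × InfSet), MeasurableSet B ∧
      (∀ x : ℕ → ℕ, BorelColorable {y : InfSet | (x, y) ∈ B} 3) ∧
      ¬ ∃ f : (ℕ → ℕ) → InfSet, Measurable f ∧ ∀ x : ℕ → ℕ, (x, f x) ∉ B := by
  refine ⟨Pᶜ, measurable_P.compl, section_colorable, ?_⟩
  rintro ⟨f, hf, h⟩
  exact no_uniformization ⟨f, hf, fun x => Set.notMem_compl_iff.1 (h x)⟩

end Pool.Agent.Results.MP_bd9785_lc.NoBorelUniformization
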